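import Pool.Agent.helper38.VA.Spec
import Pool.Agent.helper48.SLn.Comm

/-! # Row va:DGN (MP_a2a22c_al) -/

set_option autoImplicit false

namespace Pool.Agent.VA

open Matrix Module Pool.Agent.PR Pool.Agent.H48SL

theorem DGN_int {ι : Type} [Fintype ι] [DecidableEq ι] (v : ι → ℚ) :
    ∃ D : ℤ, D ≠ 0 ∧ ∃ w : ι → ℤ, ∀ i, (w i : ℚ) = D * v i := by
  refine ⟨∏ i, ((v i).den : ℤ), ?_, fun i => (v i).num * ∏ j ∈ Finset.univ.erase i, ((v j).den : ℤ),
    fun i => ?_⟩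
  · exact Finset.prod_ne_zero_iff.mpr fun i _ => by exact_mod_cast (v i).den_nz
  · rw [← Finset.mul_prod_erase Finset.univ (fun j => ((v j).den : ℤ)) (Finset.mem_univ i)]
    push_cast
    have h := Rat.mul_den_eq_num (v i)
    rw [← h]
    ring

theorem DGN_cast {n : ℕ} (ψ e : Fin n → ℤ) (A : Matrix (Fin n) (Fin n) ℤ) :
    ((ψ ⬝ᵥ (A *ᵥ e) : ℤ) : ℚ) = (fun i => (ψ i : ℚ)) ⬝ᵥ (cq A *ᵥ fun i => (e i : ℚ)) := by
  simp [dotProduct, mulVec, cq]

theorem DGN : DGN_stmt := by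
  intro n H hH W k φ hD
  obtain ⟨Dk, hDk, k', hk'⟩ := DGN_int k
  obtain ⟨Df, hDf, f', hf'⟩ := DGN_int φ
  have hW : W ≠ ⊥ := by
    intro h
    have h2 := hD.dim
    rw [h, finrank_bot] at h2
    exact absurd h2 (by norm_num)
  obtain ⟨X, hXW, hX0⟩ := W.ne_bot_iff.mp hW
  obtain ⟨DX, hDX, M', hM'⟩ := DGN_int (fun x : Fin n × Fin n => X x.1 x.2)
  set M : Matrix (Fin n) (Fin n) ℤ := fun i j => M' (i, j) with hM
  have hDkQ : (Dk : ℚ) ≠ 0 := by exact_mod_cast hDk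
  have hDfQ : (Df : ℚ) ≠ 0 := by exact_mod_cast hDf
  have hDXQ : (DX : ℚ) ≠ 0 := by exact_mod_cast hDX
  have ek : (fun i => (k' i : ℚ)) = (Dk : ℚ) • k := by
    funext i
    rw [hk', Pi.smul_apply, smul_eq_mul]
  have ef : (fun i => (f' i : ℚ)) = (Df : ℚ) • φ := by
    funext i
    rw [hf', Pi.smul_apply, smul_eq_mul]
  have eM : cq M = (DX : ℚ) • X := by
    ext i j
    rw [Matrix.smul_apply, smul_eq_mul]
    exact hM' (i, j)
  have hk0 : k' ≠ 0 := by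
    intro h
    apply hD.k0
    have h2 : (Dk : ℚ) • k = 0 := by
      rw [← ek, h]
      funext i
      simp
    exact (smul_eq_zero.mp h2).resolve_left hDkQ
  have hf0 : f' ≠ 0 := by
    intro h
    apply hD.f0
    have h2 : (Df : ℚ) • φ = 0 := by
      rw [← ef, h]
      funext i
      simp
    exact (smul_eq_zero.mp h2).resolve_left hDfQ
  have hM0 : M ≠ 0 := by
    intro h
    apply hX0
    have h2 : (DX : ℚ) • X = 0 := by
      rw [← eM, h]
      ext i j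
      simp [cq]
    exact (smul_eq_zero.mp h2).resolve_left hDXQ
  have hfk : f' ⬝ᵥ k' = 0 := by
    have h2 : ((f' ⬝ᵥ k' : ℤ) : ℚ) = (fun i => (f' i : ℚ)) ⬝ᵥ (fun i => (k' i : ℚ)) := by
      simp [dotProduct]
    rw [ek, ef, smul_dotProduct, dotProduct_smul, hD.fk, smul_zero, smul_zero] at h2
    exact_mod_cast h2
  have hMk : M *ᵥ k' = 0 := by
    have h2 : (fun i => (((M *ᵥ k') i : ℤ) : ℚ)) = cq M *ᵥ fun i => (k' i : ℚ) := by
      funext i
      simp [mulVec, dotProduct, cq]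
    rw [ek, eM, smul_mulVec, mulVec_smul, hD.Xk X hXW, smul_zero, smul_zero] at h2
    funext i
    have h3 := congrFun h2 i
    simp only [Pi.zero_apply] at h3 ⊢
    exact_mod_cast h3
  have hfM : f' ᵥ* M = 0 := by
    have h2 : (fun i => (((f' ᵥ* M) i : ℤ) : ℚ)) = (fun i => (f' i : ℚ)) ᵥ* cq M := by
      funext i
      simp [vecMul, dotProduct, cq]
    rw [ef, eM, vecMul_smul, smul_vecMul, hD.fX X hXW, smul_zero, smul_zero] at h2
    funext i
    have h3 := congrFun h2 i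
    simp only [Pi.zero_apply] at h3 ⊢
    exact_mod_cast h3
  obtain ⟨h, hhH, hh⟩ := (((NZ.dot hf0 hk0).mul (NZ.dot_inv hf0 hk0)).mul
    (NZ.conj hk0 hf0 hfk hM0 hMk hfM)).dense hH
  have hh1 := left_ne_zero_of_mul (left_ne_zero_of_mul hh)
  have hh2 := right_ne_zero_of_mul (left_ne_zero_of_mul hh)
  have hh3 := right_ne_zero_of_mul hh
  have key : ∀ A : Matrix (Fin n) (Fin n) ℤ, f' ⬝ᵥ (A *ᵥ k') ≠ 0 → φ ⬝ᵥ (cq A *ᵥ k) ≠ 0 := by
    intro A hA h0
    apply hA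
    have h2 := DGN_cast f' k' A
    rw [ek, ef, smul_dotProduct, mulVec_smul, dotProduct_smul, h0, smul_zero, smul_zero] at h2
    exact_mod_cast h2
  refine ⟨h⁻¹, H.inv_mem hhH, key _ hh2, ?_, X, hXW, ?_⟩
  · rw [inv_inv]
    exact key _ hh1
  · intro h0
    apply hh3
    rw [inv_inv] at h0
    have h2 : f' ᵥ* ((h⁻¹ : SpecialLinearGroup (Fin n) ℤ) : Matrix (Fin n) (Fin n) ℤ) ⬝ᵥ
        (M *ᵥ ((h : Matrix (Fin n) (Fin n) ℤ) *ᵥ k')) =
        f' ⬝ᵥ ((((h⁻¹ : SpecialLinearGroup (Fin n) ℤ) : Matrix (Fin n) (Fin n) ℤ) * M *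
          (h : Matrix (Fin n) (Fin n) ℤ)) *ᵥ k') := by
      rw [← dotProduct_mulVec, mulVec_mulVec, mulVec_mulVec]
    have h3 := DGN_cast f' k' (((h⁻¹ : SpecialLinearGroup (Fin n) ℤ) : Matrix (Fin n) (Fin n) ℤ) * M *
          (h : Matrix (Fin n) (Fin n) ℤ))
    have h4 : cq (((h⁻¹ : SpecialLinearGroup (Fin n) ℤ) : Matrix (Fin n) (Fin n) ℤ) * M *
          (h : Matrix (Fin n) (Fin n) ℤ)) = (DX : ℚ) • (stdM ℚ h⁻¹ * X * stdM ℚ h) := by
      unfold cq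
      rw [Matrix.map_mul, Matrix.map_mul]
      have h5 : M.map (Int.castRingHom ℚ) = (DX : ℚ) • X := eM
      rw [h5, Matrix.mul_smul, Matrix.smul_mul]
      rfl
    rw [h4, ek, ef, smul_dotProduct, mulVec_smul, dotProduct_smul, smul_mulVec, dotProduct_smul, h0,
      smul_zero, smul_zero, smul_zero] at h3
    beta_reduce
    rw [h2]
    exact_mod_cast h3

end Pool.Agent.VA
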